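import Pool.Agent.Work.MP_e17eac_co.Bd.B01

/-!
# Gadgets: the local cases (continued)
-/

set_option autoImplicit false
set_option maxHeartbeats 4000000

namespace Pool.Agent.Work.MP_e17eac_co.PL2

theorem rradj (i x y f1 p1 u1 q1 e1 f2 p2 u2 q2 e2 d0 d1 d2 hx0 hx1 hx2 hy0 hy1 hy2 oxr oxs oyr oys : ℤ)
    (t1 : Tup x f1 p1 u1 q1 e1) (t2 : Tup y f2 p2 u2 q2 e2)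
    (X : (x = i + 1 ∧ hx0 = 0 ∧ hx1 = 0 ∧ hx2 = -1 ∧ oxr = 0 ∧ oxs = -f1) ∨
      (x = i ∧ hx0 = 0 ∧ hx1 = -1 ∧ hx2 = 1 ∧ oxr = -f1 ∧ oxs = u1) ∨
      (x = i - 1 ∧ hx0 = -1 ∧ hx1 = 1 ∧ hx2 = 0 ∧ oxr = u1 ∧ oxs = e1) ∨
      (x = i - 2 ∧ hx0 = 1 ∧ hx1 = 0 ∧ hx2 = 0 ∧ oxr = e1 ∧ oxs = 0) ∨
      ((i + 2 ≤ x ∨ x ≤ i - 3) ∧ hx0 = 0 ∧ hx1 = 0 ∧ hx2 = 0 ∧ oxr = 0 ∧ oxs = 0))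
    (Y : (y = i + 1 ∧ hy0 = 0 ∧ hy1 = 0 ∧ hy2 = -1 ∧ oyr = 0 ∧ oys = -f2) ∨
      (y = i ∧ hy0 = 0 ∧ hy1 = -1 ∧ hy2 = 1 ∧ oyr = -f2 ∧ oys = u2) ∨
      (y = i - 1 ∧ hy0 = -1 ∧ hy1 = 1 ∧ hy2 = 0 ∧ oyr = u2 ∧ oys = e2) ∨
      (y = i - 2 ∧ hy0 = 1 ∧ hy1 = 0 ∧ hy2 = 0 ∧ oyr = e2 ∧ oys = 0) ∨
      ((i + 2 ≤ y ∨ y ≤ i - 3) ∧ hy0 = 0 ∧ hy1 = 0 ∧ hy2 = 0 ∧ oyr = 0 ∧ oys = 0))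
    (v0001 : ¬ (0 < d0 ∧ d1 < 0))
    (v0002 : ¬ (0 < d0 ∧ d2 < 0))
    (v0012 : ¬ (0 < d1 ∧ d2 < 0))
    (v0101 : ¬ (0 < d0 + hy0 ∧ d1 + hy1 < 0))
    (v0102 : ¬ (0 < d0 + hy0 ∧ d2 + hy2 < 0))
    (v0112 : ¬ (0 < d1 + hy1 ∧ d2 + hy2 < 0))
    (v1001 : ¬ (0 < d0 - hx0 ∧ d1 - hx1 < 0))
    (v1002 : ¬ (0 < d0 - hx0 ∧ d2 - hx2 < 0))
    (v1012 : ¬ (0 < d1 - hx1 ∧ d2 - hx2 < 0))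
    (v1101 : ¬ (0 < d0 - hx0 + hy0 ∧ d1 - hx1 + hy1 < 0))
    (v1102 : ¬ (0 < d0 - hx0 + hy0 ∧ d2 - hx2 + hy2 < 0))
    (v1112 : ¬ (0 < d1 - hx1 + hy1 ∧ d2 - hx2 + hy2 < 0)) :
    ¬ (0 < d0 + d1 + oyr - oxr ∧ d1 + d2 + oys - oxs < 0) := by
  have b1 := t1.bd
  have b2 := t2.bd
  rintro ⟨g1, g2⟩
  rcases X with X | X | X | X | X <;> rcases Y with Y | Y | Y | Y | Y <;>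
    first
      | omega
      | (unfold Tup at t1 t2; rcases t1 with t1 | t1 | t1 | t1 <;> rcases t2 with t2 | t2 | t2 | t2 <;> omega)

theorem rofar (i j x y f1 p1 u1 q1 e1 f2 p2 u2 q2 e2 da db dc hxa hxb hxc hya hyb hyc oxr oxs oyr oys : ℤ)
    (t1 : Tup x f1 p1 u1 q1 e1) (t2 : Tup y f2 p2 u2 q2 e2)
    (hij : i < j)
    (X : (x = i - 2 ∧ hxa = 1 ∧ hxb = 0 ∧ hxc = 0 ∧ oxr = e1 ∧ oxs = 0) ∨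
      (x = i - 1 ∧ hxa = -1 ∧ hxb = 1 ∧ hxc = 0 ∧ oxr = u1 ∧ oxs = 0) ∨
      (x = i ∧ i + 1 = j ∧ hxa = 0 ∧ hxb = -1 ∧ hxc = 1 ∧ oxr = -f1 ∧ oxs = q1) ∨
      (x = i ∧ i + 1 < j ∧ hxa = 0 ∧ hxb = -1 ∧ hxc = 0 ∧ oxr = -f1 ∧ oxs = 0) ∨
      (x = j ∧ hxa = 0 ∧ hxb = 0 ∧ hxc = -1 ∧ oxr = 0 ∧ oxs = -p1) ∨
      (x = j - 1 ∧ i + 1 < j ∧ hxa = 0 ∧ hxb = 0 ∧ hxc = 1 ∧ oxr = 0 ∧ oxs = q1) ∨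
      ((x ≤ i - 3 ∨ (i < x ∧ x < j - 1) ∨ j < x) ∧ hxa = 0 ∧ hxb = 0 ∧ hxc = 0 ∧ oxr = 0 ∧ oxs = 0))
    (Y : (y = i - 2 ∧ hya = 1 ∧ hyb = 0 ∧ hyc = 0 ∧ oyr = e2 ∧ oys = 0) ∨
      (y = i - 1 ∧ hya = -1 ∧ hyb = 1 ∧ hyc = 0 ∧ oyr = u2 ∧ oys = 0) ∨
      (y = i ∧ i + 1 = j ∧ hya = 0 ∧ hyb = -1 ∧ hyc = 1 ∧ oyr = -f2 ∧ oys = q2) ∨
      (y = i ∧ i + 1 < j ∧ hya = 0 ∧ hyb = -1 ∧ hyc = 0 ∧ oyr = -f2 ∧ oys = 0) ∨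
      (y = j ∧ hya = 0 ∧ hyb = 0 ∧ hyc = -1 ∧ oyr = 0 ∧ oys = -p2) ∨
      (y = j - 1 ∧ i + 1 < j ∧ hya = 0 ∧ hyb = 0 ∧ hyc = 1 ∧ oyr = 0 ∧ oys = q2) ∨
      ((y ≤ i - 3 ∨ (i < y ∧ y < j - 1) ∨ j < y) ∧ hya = 0 ∧ hyb = 0 ∧ hyc = 0 ∧ oyr = 0 ∧ oys = 0))
    (v00ab : ¬ (0 < da ∧ db < 0))
    (v00ac : ¬ (0 < da ∧ dc < 0))
    (v00bc : ¬ (0 < db ∧ dc < 0))
    (v01ab : ¬ (0 < da + hya ∧ db + hyb < 0))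
    (v01ac : ¬ (0 < da + hya ∧ dc + hyc < 0))
    (v01bc : ¬ (0 < db + hyb ∧ dc + hyc < 0))
    (v10ab : ¬ (0 < da - hxa ∧ db - hxb < 0))
    (v10ac : ¬ (0 < da - hxa ∧ dc - hxc < 0))
    (v10bc : ¬ (0 < db - hxb ∧ dc - hxc < 0))
    (v11ab : ¬ (0 < da - hxa + hya ∧ db - hxb + hyb < 0))
    (v11ac : ¬ (0 < da - hxa + hya ∧ dc - hxc + hyc < 0))
    (v11bc : ¬ (0 < db - hxb + hyb ∧ dc - hxc + hyc < 0)) :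
    ¬ (0 < da + db + oyr - oxr ∧ 10 * dc + oys - oxs < 0) := by
  have b1 := t1.bd
  have b2 := t2.bd
  rintro ⟨g1, g2⟩
  rcases X with X | X | X | X | X | X | X <;> rcases Y with Y | Y | Y | Y | Y | Y | Y <;>
    first
      | omega
      | (unfold Tup at t1 t2; rcases t1 with t1 | t1 | t1 | t1 <;> rcases t2 with t2 | t2 | t2 | t2 <;> omega)

theorem orfar (i j x y f1 p1 u1 q1 e1 f2 p2 u2 q2 e2 da db dc hxa hxb hxc hya hyb hyc oxr oxs oyr oys : ℤ)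
    (t1 : Tup x f1 p1 u1 q1 e1) (t2 : Tup y f2 p2 u2 q2 e2)
    (hij : i ≤ j - 2)
    (X : (x = j ∧ hxa = 0 ∧ hxb = 0 ∧ hxc = -1 ∧ oxr = 0 ∧ oxs = -f1) ∨
      (x = j - 1 ∧ hxa = 0 ∧ hxb = -1 ∧ hxc = 1 ∧ oxr = 0 ∧ oxs = u1) ∨
      (x = j - 2 ∧ i = j - 2 ∧ hxa = -1 ∧ hxb = 1 ∧ hxc = 0 ∧ oxr = -p1 ∧ oxs = e1) ∨
      (x = j - 2 ∧ i < j - 2 ∧ hxa = 0 ∧ hxb = 1 ∧ hxc = 0 ∧ oxr = 0 ∧ oxs = e1) ∨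
      (x = i ∧ i < j - 2 ∧ hxa = -1 ∧ hxb = 0 ∧ hxc = 0 ∧ oxr = -p1 ∧ oxs = 0) ∨
      (x = i - 1 ∧ hxa = 1 ∧ hxb = 0 ∧ hxc = 0 ∧ oxr = q1 ∧ oxs = 0) ∨
      ((x ≤ i - 2 ∨ (i < x ∧ x < j - 2) ∨ j < x) ∧ hxa = 0 ∧ hxb = 0 ∧ hxc = 0 ∧ oxr = 0 ∧ oxs = 0))
    (Y : (y = j ∧ hya = 0 ∧ hyb = 0 ∧ hyc = -1 ∧ oyr = 0 ∧ oys = -f2) ∨
      (y = j - 1 ∧ hya = 0 ∧ hyb = -1 ∧ hyc = 1 ∧ oyr = 0 ∧ oys = u2) ∨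
      (y = j - 2 ∧ i = j - 2 ∧ hya = -1 ∧ hyb = 1 ∧ hyc = 0 ∧ oyr = -p2 ∧ oys = e2) ∨
      (y = j - 2 ∧ i < j - 2 ∧ hya = 0 ∧ hyb = 1 ∧ hyc = 0 ∧ oyr = 0 ∧ oys = e2) ∨
      (y = i ∧ i < j - 2 ∧ hya = -1 ∧ hyb = 0 ∧ hyc = 0 ∧ oyr = -p2 ∧ oys = 0) ∨
      (y = i - 1 ∧ hya = 1 ∧ hyb = 0 ∧ hyc = 0 ∧ oyr = q2 ∧ oys = 0) ∨
      ((y ≤ i - 2 ∨ (i < y ∧ y < j - 2) ∨ j < y) ∧ hya = 0 ∧ hyb = 0 ∧ hyc = 0 ∧ oyr = 0 ∧ oys = 0))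
    (v00ab : ¬ (0 < da ∧ db < 0))
    (v00ac : ¬ (0 < da ∧ dc < 0))
    (v00bc : ¬ (0 < db ∧ dc < 0))
    (v01ab : ¬ (0 < da + hya ∧ db + hyb < 0))
    (v01ac : ¬ (0 < da + hya ∧ dc + hyc < 0))
    (v01bc : ¬ (0 < db + hyb ∧ dc + hyc < 0))
    (v10ab : ¬ (0 < da - hxa ∧ db - hxb < 0))
    (v10ac : ¬ (0 < da - hxa ∧ dc - hxc < 0))
    (v10bc : ¬ (0 < db - hxb ∧ dc - hxc < 0))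
    (v11ab : ¬ (0 < da - hxa + hya ∧ db - hxb + hyb < 0))
    (v11ac : ¬ (0 < da - hxa + hya ∧ dc - hxc + hyc < 0))
    (v11bc : ¬ (0 < db - hxb + hyb ∧ dc - hxc + hyc < 0)) :
    ¬ (0 < 10 * da + oyr - oxr ∧ db + dc + oys - oxs < 0) := by
  have b1 := t1.bd
  have b2 := t2.bd
  rintro ⟨g1, g2⟩
  rcases X with X | X | X | X | X | X | X <;> rcases Y with Y | Y | Y | Y | Y | Y | Y <;>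
    first
      | omega
      | (unfold Tup at t1 t2; rcases t1 with t1 | t1 | t1 | t1 <;> rcases t2 with t2 | t2 | t2 | t2 <;> omega)

end Pool.Agent.Work.MP_e17eac_co.PL2
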