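import Pool.Agent.Work.MP_e17eac_co.Bd.B02
import Pool.Agent.Work.MP_e17eac_co.Bd.B01

/-!
# Allowable sequences with `n ^ (6 / 5)` halving swaps
-/

set_option autoImplicit false
set_option maxHeartbeats 4000000

namespace Pool.Agent.Work.MP_e17eac_co.PL2

open Pool.Agent.Work.MP_e17eac_co.PL

/-- the number of lines of the class `c`, with two additional classes -/
def sz (C d : ℕ) (size : ℤ → ℤ) (c : ℕ) : ℕ :=
  if c = 0 then d else if c = C + 1 then d else (size ((c : ℤ) - 1)).toNat

/-- the number of lines below the level -/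
def ct (C d : ℕ) (a : ℤ → ℤ) (c : ℕ) : ℕ :=
  if c = 0 then d else if c = C + 1 then 0 else (a ((c : ℤ) - 1)).toNat

theorem sum_two (C : ℕ) (f : ℕ → ℕ) :
    ∑ c ∈ Finset.range (C + 2), f c = (∑ i ∈ Finset.range C, f (i + 1)) + f 0 + f (C + 1) := by
  rw [Finset.sum_range_succ, Finset.sum_range_succ']

theorem sum_toNat (C N : ℕ) (a : ℤ → ℤ) (h0 : ∀ c, 0 ≤ a c)
    (hN : ∑ c ∈ Finset.range C, a (c : ℤ) = N) :
    ∑ c ∈ Finset.range C, (a (c : ℤ)).toNat = N := by
  have h1 : ((∑ c ∈ Finset.range C, (a (c : ℤ)).toNat : ℕ) : ℤ) = (N : ℤ) := by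
    push_cast
    rw [← hN]
    refine Finset.sum_congr rfl fun c _ => ?_
    exact Int.toNat_of_nonneg (h0 _)
  exact_mod_cast h1

theorem claimPow (h : ClaimStates) (k n : ℕ) (he : Even n) (hn : 2 * 12 ^ k ≤ n) :
    ∃ A : AllowableSeq n, 20 ^ k ≤ A.halvingSwaps := by
  obtain ⟨M, hM⟩ := he
  obtain ⟨d, hd⟩ : ∃ d, M = d + 12 ^ k := ⟨M - 12 ^ k, by omega⟩
  have hpow : 0 < 12 ^ k := by positivity
  obtain ⟨m, C, size, s, hp, h0, hC, hN, hb, hMs, hV, hH, hT⟩ := config_pow k
  obtain ⟨A, hA⟩ := h (C + 2) M m n (sz C d size) (fun t c => ct C d (s t) c) (by omega)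
    (by
      rw [sum_two]
      have e1 : ∑ i ∈ Finset.range C, sz C d size (i + 1) = 2 * 12 ^ k := by
        rw [← sum_toNat C (2 * 12 ^ k) size h0 hN]
        refine Finset.sum_congr rfl fun i hi => ?_
        have hi' : i < C := Finset.mem_range.1 hi
        unfold sz
        rw [if_neg (by omega), if_neg (by omega)]
        congr 2
        push_cast
        ring
      have e2 : sz C d size 0 = d := by
        unfold sz
        rw [if_pos rfl]
      have e3 : sz C d size (C + 1) = d := by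
        unfold sz
        rw [if_neg (by omega), if_pos rfl]
      rw [e1, e2, e3]
      omega)
    (by
      intro t ht c hc
      show ct C d (s t) c ≤ sz C d size c
      unfold ct sz
      split_ifs
      · exact le_refl _
      · exact Nat.zero_le _
      · exact Int.toNat_le_toNat (hb t ht _).2)
    (by
      intro t ht
      show ∑ c ∈ Finset.range (C + 2), ct C d (s t) c = M
      rw [sum_two]
      have e1 : ∑ i ∈ Finset.range C, ct C d (s t) (i + 1) = 12 ^ k := by
        rw [← sum_toNat C (12 ^ k) (s t) (fun c => (hb t ht c).1) (hMs t ht)]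
        refine Finset.sum_congr rfl fun i hi => ?_
        have hi' : i < C := Finset.mem_range.1 hi
        unfold ct
        rw [if_neg (by omega), if_neg (by omega)]
        congr 2
        push_cast
        ring
      have e2 : ct C d (s t) 0 = d := by
        unfold ct
        rw [if_pos rfl]
      have e3 : ct C d (s t) (C + 1) = 0 := by
        unfold ct
        rw [if_neg (by omega), if_pos rfl]
      rw [e1, e2, e3]
      omega)
    (by
      intro t t' htt ht' c c' hcc hc'
      rintro ⟨a1, a2⟩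
      replace a1 : ct C d (s t) c < ct C d (s t') c := a1
      replace a2 : ct C d (s t') c' < ct C d (s t) c' := a2
      have hlt : t < t' := by
        rcases Nat.lt_or_ge t t' with h | h
        · exact h
        · have e : t = t' := by omega
          rw [e] at a1
          exact absurd a1 (lt_irrefl _)
      unfold ct at a1 a2
      rw [if_neg (show ¬ c' = 0 by omega)] at a2
      rw [if_neg (show ¬ c' = 0 by omega)] at a2
      by_cases c0 : c = 0
      · rw [if_pos c0, if_pos c0] at a1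
        exact absurd a1 (lt_irrefl _)
      · rw [if_neg c0, if_neg c0, if_neg (show ¬ c = C + 1 by omega),
          if_neg (show ¬ c = C + 1 by omega)] at a1
        by_cases c1 : c' = C + 1
        · rw [if_pos c1, if_pos c1] at a2
          exact absurd a2 (lt_irrefl _)
        · rw [if_neg c1, if_neg c1] at a2
          have b1 := (hb t (by omega) ((c : ℤ) - 1)).1
          have b2 := (hb t' ht' ((c : ℤ) - 1)).1
          have b3 := (hb t (by omega) ((c' : ℤ) - 1)).1
          have b4 := (hb t' ht' ((c' : ℤ) - 1)).1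
          refine hV t t' hlt ht' ((c : ℤ) - 1) ((c' : ℤ) - 1) (by omega) ⟨?_, ?_⟩
          · show 0 < s t' ((c : ℤ) - 1) - s t ((c : ℤ) - 1)
            omega
          · show s t' ((c' : ℤ) - 1) - s t ((c' : ℤ) - 1) < 0
            omega)
  refine ⟨A, ?_⟩
  have hM2 : n / 2 = M := by omega
  unfold AllowableSeq.halvingSwaps
  rw [hM2]
  refine (hT.trans ?_).trans hA
  have hfin : {t : ℕ | t < m ∧ ∃ c < C + 2, ct C d (s t) c ≠ ct C d (s (t + 1)) c}.Finite :=
    (Set.finite_lt_nat m).subset fun t ht => ht.1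
  rw [← Set.ncard_coe_finset]
  refine Set.ncard_le_ncard ?_ hfin
  intro t ht
  have ht' : t ∈ (Finset.range m).filter fun t => (hp t).isSome := ht
  rw [Finset.mem_filter, Finset.mem_range] at ht'
  obtain ⟨htm, hs⟩ := ht'
  obtain ⟨x, hx⟩ := Option.isSome_iff_exists.1 hs
  have e := hH t htm x hx
  have b1 := hb (t + 1) (by omega) x
  have b3 := hb t (by omega) x
  have hsx : s (t + 1) x = s t x - 1 := by
    rw [e]
    show s t x + hopv x x = s t x - 1
    unfold hopv
    rw [if_pos rfl]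
    ring
  have hx0 : 0 ≤ x ∧ x < C := by
    constructor
    · by_contra hn
      have := hC x (Or.inl (by omega))
      omega
    · by_contra hn
      have := hC x (Or.inr (by omega))
      omega
  refine ⟨htm, x.toNat + 1, by omega, ?_⟩
  unfold ct
  rw [if_neg (by omega), if_neg (by omega), if_neg (by omega), if_neg (by omega)]
  have e2 : ((x.toNat + 1 : ℕ) : ℤ) - 1 = x := by
    push_cast
    omega
  rw [e2, hsx]
  omega

/-- The lower bound. -/
theorem lower (h : ClaimStates) :
    ∃ n₀ : ℕ, ∀ n : ℕ, n₀ ≤ n → Even n →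
      ∃ A : AllowableSeq n, (n : ℝ) ^ ((6 : ℝ) / 5) ≤ (A.halvingSwaps : ℝ) := by
  obtain ⟨K, hK⟩ := pow_unbounded_of_one_lt ((24 : ℝ) ^ 6) (by norm_num : (1 : ℝ) < 21 / 20)
  refine ⟨2 * 12 ^ K, fun n hn he => ?_⟩
  obtain ⟨m, hm⟩ := he
  have hm1 : 12 ^ K ≤ m := by omega
  have hm0 : m ≠ 0 := by
    have : 0 < 12 ^ K := by positivity
    omega
  obtain ⟨k, hk⟩ : ∃ k, k = Nat.log 12 m := ⟨_, rfl⟩
  have hKk : K ≤ k := by
    rw [hk]
    exact Nat.le_log_of_pow_le (by norm_num) hm1
  have hlo : 12 ^ k ≤ m := by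
    rw [hk]
    exact Nat.pow_log_le_self 12 hm0
  have hhi : m < 12 ^ (k + 1) := by
    rw [hk]
    exact Nat.lt_pow_succ_log_self (by norm_num) m
  obtain ⟨A, hA⟩ := claimPow h k n ⟨m, hm⟩ (by omega)
  refine ⟨A, le_trans ?_ (by exact_mod_cast hA : ((20 : ℝ) ^ k) ≤ (A.halvingSwaps : ℝ))⟩
  have h1 : (n : ℝ) ≤ 24 * 12 ^ k := by
    have h2 : n ≤ 24 * 12 ^ k := by
      rw [pow_succ] at hhi
      omega
    exact_mod_cast h2
  have hn0 : (0 : ℝ) ≤ n := Nat.cast_nonneg n
  have h3 : (n : ℝ) ^ 6 ≤ ((20 : ℝ) ^ k) ^ 5 := by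
    calc (n : ℝ) ^ 6 ≤ (24 * 12 ^ k) ^ 6 := pow_le_pow_left₀ hn0 h1 6
      _ = 24 ^ 6 * (12 ^ 6) ^ k := by
          rw [mul_pow, ← pow_mul, ← pow_mul, mul_comm k 6]
      _ ≤ (21 / 20) ^ k * (12 ^ 6) ^ k := by
          refine mul_le_mul_of_nonneg_right ?_ (by positivity)
          exact hK.le.trans (pow_le_pow_right₀ (by norm_num) hKk)
      _ = (21 / 20 * 12 ^ 6) ^ k := by rw [mul_pow]
      _ ≤ (20 ^ 5) ^ k := pow_le_pow_left₀ (by positivity) (by norm_num) k
      _ = ((20 : ℝ) ^ k) ^ 5 := by rw [← pow_mul, ← pow_mul, mul_comm k 5]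
  have h4 : (n : ℝ) ^ ((6 : ℝ) / 5) = ((n : ℝ) ^ 6) ^ ((1 : ℝ) / 5) := by
    rw [← Real.rpow_natCast (n : ℝ) 6, ← Real.rpow_mul hn0]
    norm_num
  have h5 : (((20 : ℝ) ^ k) ^ 5) ^ ((1 : ℝ) / 5) = (20 : ℝ) ^ k := by
    rw [← Real.rpow_natCast ((20 : ℝ) ^ k) 5, ← Real.rpow_mul (by positivity)]
    norm_num
  rw [h4, ← h5]
  exact Real.rpow_le_rpow (by positivity) h3 (by norm_num)

end Pool.Agent.Work.MP_e17eac_co.PL2
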